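import Pool.Agent.Y126.JB.Defs
import Pool.Agent.Y126.MU.Defs

/-!
# Systems of odd-dimensional varieties with special places: definitions
-/

open CategoryTheory AlgebraicGeometry

universe u

namespace Pool.Agent.Y126.SA

open Pool.Agent.TH125.Gal Pool.Agent.Y126.JB Pool.Agent.Y126.MU

section Alg

variable {K : Type} [Field K] {A : Type} [Ring A] [Algebra K A] {Γ : Type} [Group Γ]

/-- Either `g` acts by `χ` trivially and `T` is irreducible under all subgroups of finite index, with
`g` acting on it as in `BlockAct`, or `g` acts on `T` by a maximal unipotent map such that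
`φ g = g ^ q φ` on `T`, and `T` is not geometric. -/
def SpecialActs (χ : Γ →* Kˣ) (T : Submodule K A) (ρ : Γ →* (A ≃ₐ[K] A)) (g φ : Γ) : Prop :=
  (χ g = 1 ∧ IrredAct ρ T ∧ BlockAct T ρ g) ∨ (MaximalActs χ T ρ g φ ∧ NonGeometric T ρ)

/-- `T` is in the degree `n` and `n` is odd. -/
def OddDegree (T : Submodule K A) (gr : ℕ → Submodule K A) (n : ℕ) : Prop := T ≤ gr n ∧ Odd n

/-- The homomorphisms `f` and `h` are equivariant. -/
def Compatible {B C : Type} [Ring B] [Algebra K B] [Ring C] [Algebra K C] (f : A →ₐ[K] C)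
    (h : B →ₐ[K] C) (ρ : Γ →* (A ≃ₐ[K] A)) (τ : Γ →* (B ≃ₐ[K] B)) (υ : Γ →* (C ≃ₐ[K] C)) : Prop :=
  Intertwines f ρ υ ∧ Intertwines h τ υ

end Alg

open Pool.Agent.H914 Pool.Agent.H914.VarClass Pool.Agent.H914.VarClass.Obj
  Pool.Agent.H914.WeilCohomology Pool.Agent.H281R3.HT Pool.Agent.W552

variable {k : Type u} [Field k] {𝒱 : VarClass k} {ops : CycleOps 𝒱}
  {W : WeilCohomology.{u, 0} ops} {Γ : Type} [Group Γ]

/-- There is a place, with an element `g` of the inertia group and an element `φ` of the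
decomposition group, at which `X i` is special and `Z` and the other `X j` are good. -/
def SpecialPlace (χ : Γ →* W.Kˣ) (ι : W.K →+* ℂ) {I : Type} (X : I → GVar W Γ) (Z : GVar W Γ)
    (i : I) : Prop :=
  ∃ g φ : Γ, SpecialActs χ (transcendental W (X i).X) (X i).act g φ ∧
    GoodActs χ ι (W.gr Z.X) Z.act g φ ∧ ∀ j, j ≠ i → GoodActs χ ι (W.gr (X j).X) (X j).act g φ

/-- `C` is the product of `A` and `B`, with a compatible action. -/
inductive IsProd (A B : GVar W Γ) : GVar W Γ → Prop
  | mk (υ : Γ →* (W.H (A.X.prod B.X) ≃ₐ[W.K] W.H (A.X.prod B.X))) :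
      Compatible (W.map (fst A.X B.X)) (W.map (snd A.X B.X)) A.act B.act υ →
      IsProd A B ⟨A.X.prod B.X, υ⟩

/-- `Γ` acts on the cohomology of `X` like a Galois group. -/
def GaloisVar (χ : Γ →* W.Kˣ) (X : GVar W Γ) : Prop :=
  IsGaloisAct χ (W.gr X.X) X.X.dim (W.tr X.X) (algClasses W X.X) X.act

/-- `Γ` acts on the cohomology of the members of `G` like a Galois group, and `G` is closed under
products (with compatible actions). -/
structure ActClass (χ : Γ →* W.Kˣ) (G : Set (GVar W Γ)) : Prop where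
  galois : ∀ X ∈ G, GaloisVar χ X
  prod : ∀ A ∈ G, ∀ B ∈ G, ∃ C ∈ G, IsProd A B C

/-- `D` is a divisor on the variety `X` of odd dimension with the hard Lefschetz theorem and the
standard conjectures of Lefschetz and of Hodge type, and the transcendental cohomology is in the
middle degree. -/
structure OddPolarized (W : WeilCohomology.{u, 0} ops) (X : 𝒱.Obj) (D : X.Cycles) : Prop where
  div : X.IsCyc 1 D
  hard : HardLefschetz W X D
  lefschetz : LefschetzB W X D
  hodge : HodgeType W X D
  middle : OddDegree (transcendental W X) (W.gr X) X.dim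

/-- `Z` and the `X i` are members of the class `G`, the `X i` are odd-dimensional and polarized with the
divisors `D i` and for every `i` there is a special place. -/
structure OddSystem (χ : Γ →* W.Kˣ) (ι : W.K →+* ℂ) (G : Set (GVar W Γ)) {I : Type}
    (X : I → GVar W Γ) (D : ∀ i, (X i).X.Cycles) (Z : GVar W Γ) : Prop where
  act : ActClass χ G
  mem : Z ∈ G ∧ ∀ i, X i ∈ G
  polarized : ∀ i, OddPolarized W (X i).X (D i)
  place : ∀ i, SpecialPlace χ ι X Z i

/-- The product `P × (P × ( ⋯ × P))` of `n + 1` copies of `P`. -/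
noncomputable def powers (ops : CycleOps 𝒱) (P : Polarized 𝒱) : ℕ → Polarized 𝒱
  | 0 => P
  | n + 1 => P.prod ops (powers ops P n)

/-- The product `P i₁ ^ (n₁ + 1) × (P i₂ ^ (n₂ + 1) × (⋯ × Z))` for the list of the `(i, n)`. -/
noncomputable def tower (ops : CycleOps 𝒱) {I : Type} (P : I → Polarized 𝒱) (Z : Polarized 𝒱) :
    List (I × ℕ) → Polarized 𝒱
  | [] => Z
  | a :: L => (powers ops (P a.1) a.2).prod ops (tower ops P Z L)

/-- The product `X i₁ ^ (n₁ + 1) × (X i₂ ^ (n₂ + 1) × (⋯ × Z))` with the sum of the pull-backs of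
the divisors. -/
noncomputable def oddTower {I : Type} (X : I → GVar W Γ) (D : ∀ i, (X i).X.Cycles)
    (Z : GVar W Γ) (E : Z.X.Cycles) (L : List (I × ℕ)) : Polarized 𝒱 :=
  tower ops (fun i => ⟨(X i).X, D i⟩) ⟨Z.X, E⟩ L

end Pool.Agent.Y126.SA
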