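import Pool.Agent.Y126.SA.Tgt
import Pool.Agent.Y126.SA.Defs
import Pool.Agent.Y126.MU.Family

/-!
# The conjecture A for towers
-/

open CategoryTheory AlgebraicGeometry Finset

set_option linter.unusedSectionVars false

universe u

namespace Pool.Agent.Y126.SA

open Pool.Agent.TH125.Gal hiding tower
open Pool.Agent.TH118.SG Pool.Agent.Y126.JB Pool.Agent.Y126.MU
open Pool.Agent.H914 Pool.Agent.H914.VarClass Pool.Agent.H914.VarClass.Obj
  Pool.Agent.H914.WeilCohomology Pool.Agent.H281R3.HT Pool.Agent.W552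

variable {k : Type u} [Field k] {𝒱 : VarClass k} {ops : CycleOps 𝒱}
  {W : WeilCohomology.{u, 0} ops} {Γ : Type} [Group Γ] {χ : Γ →* W.Kˣ} {ι : W.K →+* ℂ}
  {G : Set (GVar W Γ)}

/-- there is cohomology -/
theorem one_ne_of {X : 𝒱.Obj} {t : W.H X} (ht : t ≠ 0) : (1 : W.H X) ≠ 0 := fun h =>
  ht (by rw [← one_mul t, h, zero_mul])

theorem maxUnipotent_one {X : GVar W Γ} {g : Γ}
    (h : MaxUnipotent (transcendental W X.X) X.act g) : (1 : W.H X.X) ≠ 0 := by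
  obtain ⟨-, t, -, ht⟩ := h
  refine one_ne_of (t := t) fun h0 => ht ?_
  rw [h0, map_zero]

theorem blockAct_one {X : GVar W Γ} {g : Γ}
    (hg : BlockAct (transcendental W X.X) X.act g) : (1 : W.H X.X) ≠ 0 := by
  intro h3
  apply hg.2.1
  have h4 : ∀ t : W.H X.X, t = 0 := fun t => by rw [← one_mul t, h3, zero_mul]
  have h5 : ∀ j, fixIm (transcendental W X.X) X.act g j = ⊥ := by
    intro j
    rw [eq_bot_iff]
    intro t _
    rw [h4 t]
    exact Submodule.zero_mem _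
  rw [jordanBlocks, h5, h5, finrank_bot]

/-- **One step.** -/
theorem splitAlg_block [IsAlgClosed W.K] (hG : GaloisClass χ G) {A : GVar W Γ} (hA : A ∈ G)
    {D : A.X.Cycles} (hD : OddPolarized W A.X D) {B : GVar W Γ} (hB : B ∈ G) {g : Γ} (hχ : χ g = 1)
    (hg : TrivAct B.act g) (hirr : IrredAct A.act (transcendental W A.X))
    (hs : BlockAct (transcendental W A.X) A.act g) (n : ℕ) : SplitAlg W A.X D B.X n := by
  obtain ⟨f, F, _⟩ := exists_Fp hD.div hD.hard hD.lefschetz hD.hodge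
  have hDX : HomEqNum W A.X := F.hodge.2
  refine ⟨⟨hD.div, hD.hard, hD.lefschetz, hD.hodge⟩, hD.middle.1, blockAct_one hs,
    fun s m _ c hc => ?_⟩
  obtain ⟨υ, hυ, hP⟩ := exists_pow_act hG hA hB D m
  obtain ⟨b, hb⟩ := exists_monoBasis (ops := ops) (⟨A.X, D⟩ : Polarized 𝒱) s.e m
  have hGA := isGalois (hG.galois A hA)
  have hfull : Full (P := ⟨A.X, D⟩) hGA B.X g :=
    full_block (P := ⟨A.X, D⟩) hDX hD.middle.1 hGA hD.middle.2 hirr hχ hs
  refine W552.AS.ind (p := fun c => c ∈ Tgt (P := ⟨A.X, D⟩) s m B.X) ?_ ?_ hc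
  · intro j c hc
    obtain ⟨Δ, hΔ, h1⟩ := (hG.galois _ hυ).cl_fix j c hc
    exact mem_Tgt' (P := ⟨A.X, D⟩) hb hDX hD.middle.1 hGA hP hD.middle.2 hχ (trivAct.1 hg) hfull
      hΔ h1
  · intro x y hx hy
    exact Submodule.add_mem _ hx hy

/-- **One step.** -/
theorem splitAlg_max [IsAlgClosed W.K] (hG : GaloisClass χ G) {A : GVar W Γ} (hA : A ∈ G)
    {D : A.X.Cycles} (hD : OddPolarized W A.X D) {B : GVar W Γ} (hB : B ∈ G) {g φ : Γ}
    (hg : TrivAct B.act g) (hng : NonGeometric (transcendental W A.X) A.act)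
    (hm : MaximalActs χ (transcendental W A.X) A.act g φ)
    (hpure : PureAct ι (χ φ : W.K) (W.gr B.X) (B.act φ)) (n : ℕ) : SplitAlg W A.X D B.X n := by
  obtain ⟨f, F, _⟩ := exists_Fp hD.div hD.hard hD.lefschetz hD.hodge
  have hDX : HomEqNum W A.X := F.hodge.2
  refine ⟨⟨hD.div, hD.hard, hD.lefschetz, hD.hodge⟩, hD.middle.1, maxUnipotent_one hm.2.1, fun s m _ c hc => ?_⟩
  obtain ⟨υ, hυ, hP⟩ := exists_pow_act hG hA hB D m
  have hGA := isGalois (hG.galois A hA)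
  obtain ⟨hχ, hu, q, hq, hφ⟩ := hm
  have hfull : FullPure W χ ι (P := ⟨A.X, D⟩) hGA g φ :=
    fullPure (P := ⟨A.X, D⟩) hDX hD.middle.1 hGA hD.middle.2 hχ hu hq hφ hng
  have hkill : KillAll W χ (⟨A.X, D⟩ : Polarized 𝒱) m B.X υ := by
    refine killAll (P := ⟨A.X, D⟩) (g := g) (φ := φ) hD.middle.1 hGA hP
      (fun g m a ha => (isGalois (hG.galois B hB)).gr_mem g m a ha) hχ (trivAct.1 hg) hpure hfull
  refine W552.AS.ind (p := fun c => c ∈ Tgt (P := ⟨A.X, D⟩) s m B.X) ?_ ?_ hc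
  · intro j c hc
    obtain ⟨Δ, hΔ, h1⟩ := (hG.galois _ hυ).cl_fix j c hc
    refine tgt_of_kill hDX hD.middle.1 (fun he => absurd hD.middle.2 (Nat.not_odd_iff_even.2 he)) hkill s
      ?_ hΔ h1
    obtain ⟨z, hz, rfl⟩ := hc
    exact W.cl_mem hz
  · intro x y hx hy
    exact Submodule.add_mem _ hx hy

variable {I : Type} {X : I → GVar W Γ} {D : ∀ i, (X i).X.Cycles} {Z : GVar W Γ}

/-- the action on the towers -/
theorem exists_tower_pure [IsAlgClosed W.K] (hG : GaloisClass χ G) (hX : ∀ i, X i ∈ G) (hZ : Z ∈ G)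
    (E : Z.X.Cycles) (L : List (I × ℕ)) :
    ∃ υ : Γ →* (W.H (tower' ops (fun i => ⟨(X i).X, D i⟩) ⟨Z.X, E⟩ L).X ≃ₐ[W.K]
        W.H (tower' ops (fun i => ⟨(X i).X, D i⟩) ⟨Z.X, E⟩ L).X),
      (⟨(tower' ops (fun i => ⟨(X i).X, D i⟩) ⟨Z.X, E⟩ L).X, υ⟩ : GVar W Γ) ∈ G ∧
      (∀ g, (∀ a ∈ L, TrivAct (X a.1).act g) → TrivAct Z.act g → TrivAct υ g) ∧
      ∀ g, (∀ a ∈ L, PureAct ι (χ g : W.K) (W.gr (X a.1).X) ((X a.1).act g)) →
        PureAct ι (χ g : W.K) (W.gr Z.X) (Z.act g) →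
        PureAct ι (χ g : W.K) (W.gr (tower' ops (fun i => ⟨(X i).X, D i⟩) ⟨Z.X, E⟩ L).X) (υ g) := by
  induction L with
  | nil => exact ⟨Z.act, hZ, fun g _ h => h, fun g _ h => h⟩
  | cons a L ih =>
    obtain ⟨τ, hτ, hτ', hτ''⟩ := ih
    obtain ⟨υ, hυ, hP⟩ := exists_pow_act hG (hX a.1) hτ (D a.1) a.2
    refine ⟨υ, hυ, fun g hg hgZ => ?_, fun g hg hgZ => ?_⟩
    · have h1 : υ g = 1 := act_one hP (trivAct.1 (hg a List.mem_cons_self))
        (trivAct.1 (hτ' g (fun b hb => hg b (List.mem_cons_of_mem _ hb)) hgZ))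
      exact trivAct.2 h1
    · exact pure_prod hP (fun m a ha => (isGalois (hG.galois _ (hX _))).gr_mem g m a ha)
        (fun m a ha => (isGalois (hG.galois _ hτ)).gr_mem g m a ha)
        (hg a List.mem_cons_self) (hτ'' g (fun b hb => hg b (List.mem_cons_of_mem _ hb)) hgZ)

theorem ActClass.galoisClass (h : ActClass χ G) : GaloisClass χ G :=
  ⟨h.galois, fun A hA B hB => by
    obtain ⟨C, h1, υ, h2⟩ := h.prod A hA B hB
    exact ⟨_, h1, IsProdVar.mk υ h2.1 h2.2⟩⟩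

/-- **One step in a tower.** -/
theorem OddSystem.split [IsAlgClosed W.K] (h : OddSystem χ ι G X D Z) {a : I × ℕ} {L : List (I × ℕ)}
    (hL : a.1 ∉ L.map Prod.fst) (E : Z.X.Cycles) :
    SplitAlg W (X a.1).X (D a.1) (tower' ops (fun i => ⟨(X i).X, D i⟩) ⟨Z.X, E⟩ L).X a.2 := by
  obtain ⟨υ, hυ, hυ', hυ''⟩ := exists_tower_pure (ι := ι) (D := D) h.act.galoisClass h.mem.2 h.mem.1 E L
  have hne : ∀ b ∈ L, b.1 ≠ a.1 := fun b hb h0 => hL (List.mem_map.2 ⟨b, hb, h0⟩)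
  obtain ⟨g, φ, ⟨hχ, hirr, hp⟩ | ⟨hm, hng⟩, hZ, hX⟩ := h.place a.1
  · exact splitAlg_block h.act.galoisClass (h.mem.2 _) (h.polarized _) hυ hχ
      (hυ' g (fun b hb => (hX b.1 (hne b hb)).1) hZ.1) hirr hp _
  · exact splitAlg_max h.act.galoisClass (h.mem.2 _) (h.polarized _) hυ
      (hυ' g (fun b hb => (hX b.1 (hne b hb)).1) hZ.1) hng hm
      (hυ'' φ (fun b hb => (hX b.1 (hne b hb)).2) hZ.2) _

theorem powers_eq (P : Polarized 𝒱) (n : ℕ) : powers ops P n = nest ops n fun _ => P := by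
  induction n with
  | zero => rfl
  | succ n ih =>
    rw [powers, ih]
    rfl

theorem oddTower_eq (X : I → GVar W Γ) (D : ∀ i, (X i).X.Cycles) (Z : GVar W Γ)
    (E : Z.X.Cycles) (L : List (I × ℕ)) :
    oddTower X D Z E L = tower' ops (fun i => ⟨(X i).X, D i⟩) ⟨Z.X, E⟩ L := by
  rw [oddTower]
  induction L with
  | nil => rfl
  | cons a L ih => rw [tower, tower', powers_eq, ih]

theorem OddSystem.hard [IsAlgClosed W.K] (h : OddSystem χ ι G X D Z) {E : Z.X.Cycles}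
    (hE : Z.X.IsCyc 1 E) (hHL : HardLefschetz W Z.X E) (L : List (I × ℕ))
    (hL : (L.map Prod.fst).Nodup) :
    (tower' ops (fun i => ⟨(X i).X, D i⟩) ⟨Z.X, E⟩ L).X.IsCyc 1
      (tower' ops (fun i => ⟨(X i).X, D i⟩) ⟨Z.X, E⟩ L).D ∧
    HardLefschetz W (tower' ops (fun i => ⟨(X i).X, D i⟩) ⟨Z.X, E⟩ L).X
      (tower' ops (fun i => ⟨(X i).X, D i⟩) ⟨Z.X, E⟩ L).D := by
  induction L with
  | nil => exact ⟨hE, hHL⟩
  | cons a L ih =>
    rw [List.map_cons, List.nodup_cons] at hL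
    have h1 := ih hL.2
    obtain ⟨hP, hPL⟩ := (h.split hL.1 E).nest_hard a.2
    exact ⟨SmVar.IsCyc.add (ops.pull_mem _ hP) (ops.pull_mem _ h1.1),
      hardLefschetz_prod hP h1.1 hPL h1.2⟩

/-- **The conjecture A for towers.** -/
theorem OddSystem.lefschetzA [IsAlgClosed W.K] (h : OddSystem χ ι G X D Z) {E : Z.X.Cycles}
    (hE : Z.X.IsCyc 1 E) (hHL : HardLefschetz W Z.X E) (L : List (I × ℕ))
    (hL : (L.map Prod.fst).Nodup) :
    LefschetzA W (oddTower X D Z E L).X (oddTower X D Z E L).D ↔ LefschetzA W Z.X E := by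
  rw [oddTower_eq]
  induction L with
  | nil => exact Iff.rfl
  | cons a L ih =>
    rw [List.map_cons, List.nodup_cons] at hL
    have h1 := h.hard hE hHL L hL.2
    rw [← ih hL.2]
    exact (h.split hL.1 E).lefschetzA_iff h1.1 h1.2

/-- **The conjecture A for towers and all divisors.** -/
theorem OddSystem.lefAll [IsAlgClosed W.K] (h : OddSystem χ ι G X D Z) (E : Z.X.Cycles)
    (L : List (I × ℕ)) (hL : (L.map Prod.fst).Nodup) :
    LefAll W (oddTower X D Z E L).X ↔ LefAll W Z.X := by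
  rw [oddTower_eq]
  induction L with
  | nil => exact Iff.rfl
  | cons a L ih =>
    rw [List.map_cons, List.nodup_cons] at hL
    rw [← ih hL.2]
    exact (h.split hL.1 E).lefAll_iff

end Pool.Agent.Y126.SA
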