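import Pool.Agent.Y126.MU.Step
import Pool.Agent.TH125.Gal.Lef

/-!
# Algebraic classes on products: the splitting from the Lie algebra
-/

open CategoryTheory AlgebraicGeometry Finset Function

set_option linter.unusedSectionVars false

universe u v w

namespace Pool.Agent.Y126.SA

open Pool.Agent.TH125.Gal Pool.Agent.Y126.MU
open Pool.Agent.H914 Pool.Agent.H914.VarClass Pool.Agent.H914.VarClass.Obj
  Pool.Agent.H914.WeilCohomology Pool.Agent.H281R3.HT Pool.Agent.W552 Pool.Agent.H447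

variable {k : Type u} [Field k] {𝒱 : VarClass k} {ops : CycleOps 𝒱}
  {W : WeilCohomology.{u, v} ops}

section

variable {P : Polarized 𝒱} {n : ℕ} {Z : 𝒱.Obj}
  {Γ : Type w} [Group Γ] {χ : Γ →* W.Kˣ}
  {υ : Γ →* (W.H ((nest ops n fun _ => P).X.prod Z) ≃ₐ[W.K]
    W.H ((nest ops n fun _ => P).X.prod Z))}

/-- **The structure of the semi-invariant classes.** -/
theorem tgt_of_kill (hDX : HomEqNum W P.X) (hmid : transcendental W P.X ≤ W.gr P.X P.X.dim)
    (hn : Even P.X.dim → n + 1 < Module.finrank W.K (transcendental W P.X))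
    (hkill : KillAll W χ P n Z υ) (s : SB W P.X)
    {c : W.H ((nest ops n fun _ => P).X.prod Z)} {j : ℕ} (hcj : c ∈ W.gr _ (2 * j))
    {Δ : Subgroup Γ} (hΔ : Δ.FiniteIndex) (hc : ∀ g ∈ Δ, υ g c = (χ g : W.K) ^ j • c) :
    c ∈ Tgt s n Z := by
  obtain ⟨b, hb⟩ := exists_monoBasis (ops := ops) P s.e n
  have hgen : ∀ c₀ : Fin (n + 1) → Option (Fin s.NC),
      (fun r : Free c₀ → Fin s.NT => hml s.e b c fun p => s.es (comb c₀ r p)) ∈
      Pool.Agent.TH125.Nod.Gen (fun _ : Fin s.NT => ())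
        (Matrix.of fun i j => bil W P.X (s.uT i) (s.uT j)) (fun _ : Free c₀ => ()) := by
    intro c₀
    have h1 := gen_of_kill (S := Free c₀) (J := Fin s.NT) (s := (-1) ^ P.X.dim)
      (B := rform W P.X (transcendental W P.X)) (neg_one_pow_eq_or ℤ _)
      (fun a b => by
        rw [rform_apply, rform_apply, trans_symm hmid a.2 b.2]
        push_cast
        rfl)
      (trans_nondeg hDX) (hkill s b hb c j hcj Δ hΔ hc c₀) s.uT (fun h => by
        have heven : Even P.X.dim := by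
          by_contra h'
          rw [(Nat.not_even_iff_odd.1 h').neg_one_pow] at h
          exact absurd h (by decide)
        have h2 := hn heven
        rw [Module.finrank_eq_card_basis s.uT] at h2
        refine lt_of_le_of_lt (Fintype.card_subtype_le _) ?_
        rwa [Fintype.card_fin])
    have h2 : (fun r : Free c₀ → Fin s.NT => hS s b c c₀ fun j => s.uT (r j)) =
        fun r : Free c₀ → Fin s.NT => hml s.e b c fun p => s.es (comb c₀ r p) := by
      funext r
      exact hS_comb c c₀ r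
    rw [← h2]
    exact h1
  rw [expand b c, sum_patterns]
  refine Submodule.sum_mem _ fun c₀ _ => ?_
  have h1 := hgen c₀
  have h2 : ∀ F ∈ Pool.Agent.TH125.Nod.Gen (fun _ : Fin s.NT => ())
      (Matrix.of fun i j => bil W P.X (s.uT i) (s.uT j)) (fun _ : Free c₀ => ()),
      ∑ r : Free c₀ → Fin s.NT, W.map (fst _ Z) (b (comb c₀ r)) * W.map (snd _ Z) (F r : W.H Z) ∈
        Tgt s n Z := by
    intro F hF
    induction hF using Submodule.span_induction with
    | mem F hF =>
      obtain ⟨m, e, w, rfl⟩ := hF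
      obtain ⟨ε, S, i, x, hx, h3⟩ := mq_sum (s := s) (π := prj ops n fun _ => P) hmid e
      have h4 : ∑ r : Free c₀ → Fin s.NT, W.map (fst _ Z) (b (comb c₀ r)) *
          W.map (snd _ Z) (Pool.Agent.TH125.Nod.gen (fun _ : Fin s.NT => ())
            (Matrix.of fun i j => bil W P.X (s.uT i) (s.uT j)) (fun _ : Free c₀ => ()) e w r) =
          (ε : W.K) • (W.map (fst _ Z) x * W.map (snd _ Z) w) := by
        rw [← smul_mul_assoc, ← map_smul, ← h3, map_sum, Finset.sum_mul]
        refine Finset.sum_congr rfl fun r _ => ?_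
        rw [Pool.Agent.TH125.Nod.gen, if_pos (fun _ => rfl), map_smul, map_smul, mul_smul_comm,
          smul_mul_assoc, hb]
        rfl
      rw [h4]
      exact Submodule.smul_mem _ _ (Submodule.subset_span ⟨S, i, x, w, hx, rfl⟩)
    | zero =>
      simp only [Pi.zero_apply, map_zero, mul_zero, Finset.sum_const_zero]
      exact Submodule.zero_mem _
    | add F F' _ _ hF hF' =>
      simp only [Pi.add_apply, map_add, mul_add, Finset.sum_add_distrib]
      exact Submodule.add_mem _ hF hF'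
    | smul x F _ hF =>
      simp only [Pi.smul_apply, map_smul, mul_smul_comm]
      rw [← Finset.smul_sum]
      exact Submodule.smul_mem _ _ hF
  have h3 := h2 _ h1
  simp only [coord_eq hb]
  exact h3

end

/-- The conditions on the polarized variety `A` relative to `B`: all algebraic classes on products
of the powers of `A` with `B` are in the span of the exterior products with distinguished classes. -/
structure SplitAlg (W : WeilCohomology.{u, v} ops) (A : 𝒱.Obj) (D : A.Cycles) (B : 𝒱.Obj)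
    (n : ℕ) : Prop where
  pol : IsPolarization W A D
  middle : transcendental W A ≤ W.gr A A.dim
  one_ne : (1 : W.H A) ≠ 0
  tgt : ∀ (s : SB W A) (m : ℕ), m ≤ n → ∀ c : W.H ((nest ops m fun _ => ⟨A, D⟩).X.prod B),
    W552.AS W _ c → c ∈ Tgt (P := ⟨A, D⟩) s m B

section

variable {A B : 𝒱.Obj} {D : A.Cycles} {n : ℕ}

theorem SplitAlg.homEqNum (h : SplitAlg W A D B n) : HomEqNum W A := by
  obtain ⟨f, F, _⟩ := exists_Fp h.pol.div h.pol.hard h.pol.lefschetz h.pol.hodge
  exact F.hodge.2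

/-- positivity on the powers -/
theorem SplitAlg.fp_nest (h : SplitAlg W A D B n) (hB1 : (1 : W.H B) ≠ 0) :
    ∃ g, Fp W (nest ops n fun _ => ⟨A, D⟩).X (nest ops n fun _ => ⟨A, D⟩).D g := by
  obtain ⟨f, F, hls⟩ := exists_Fp h.pol.div h.pol.hard h.pol.lefschetz h.pol.hodge
  obtain ⟨s⟩ := exists_SB h.homEqNum
  have key : ∀ m ≤ n, ∀ c, W552.AS W (nest ops m fun _ => ⟨A, D⟩).X c → c ∈
      Submodule.span W.K {c | ∃ S i, Mq s (prj ops m fun _ => ⟨A, D⟩) S i c} := by
    intro m hm c hc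
    exact mq_of_fst (P := ⟨A, D⟩) hB1 (h.tgt s m hm _ (hc.map (fst _ B)))
  exact Pool.Agent.TH125.Gal.fp_nest (P := ⟨A, D⟩) F hls h.pol.hard h.pol.lefschetz h.homEqNum h.middle s h.one_ne
    n (fun hn => key 1 hn) (key n le_rfl)

/-- The algebraic cycles on a product split. -/
theorem SplitAlg.clSplit (h : SplitAlg W A D B n) (hB1 : (1 : W.H B) ≠ 0) :
    TH132.A.ClSplit W (nest ops n fun _ => (⟨A, D⟩ : Polarized 𝒱)).X B := by
  obtain ⟨g, F⟩ := h.fp_nest hB1
  obtain ⟨s⟩ := exists_SB h.homEqNum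
  refine TH132.A.clSplit_of_tens fun z hz => TH132.A.mem_tens F.hodge.2 hz ?_
  refine lspan_le (tgt_lspan (A := ⟨A, (1 : Unit →* (W.H A ≃ₐ[W.K] W.H A))⟩) h.homEqNum h.middle
    (h.tgt s n le_rfl _ hz))

theorem SplitAlg.nest_one_ne (h : SplitAlg W A D B n) :
    (1 : W.H (nest ops n fun _ => (⟨A, D⟩ : Polarized 𝒱)).X) ≠ 0 := by
  obtain ⟨x, hx⟩ := exists_tr h.one_ne
  have h2 : W.tr (nest ops n fun _ => (⟨A, D⟩ : Polarized 𝒱)).X
      (mono (prj ops n fun _ => (⟨A, D⟩ : Polarized 𝒱)) fun _ => x) ≠ 0 := by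
    rw [tr_mono]
    exact pow_ne_zero _ hx
  intro h0
  apply h2
  rw [← one_mul (mono _ _), h0, zero_mul, map_zero]

theorem SplitAlg.nest_hard (h : SplitAlg W A D B n) (m : ℕ) :
    (nest ops m fun _ => (⟨A, D⟩ : Polarized 𝒱)).X.IsCyc 1
      (nest ops m fun _ => (⟨A, D⟩ : Polarized 𝒱)).D ∧
    HardLefschetz W (nest ops m fun _ => (⟨A, D⟩ : Polarized 𝒱)).X
      (nest ops m fun _ => (⟨A, D⟩ : Polarized 𝒱)).D := by
  induction m with
  | zero => exact ⟨h.pol.div, h.pol.hard⟩
  | succ m ih =>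
    exact ⟨SmVar.IsCyc.add (ops.pull_mem _ h.pol.div) (ops.pull_mem _ ih.1),
      hardLefschetz_prod h.pol.div ih.1 h.pol.hard ih.2⟩

/-- **The conjecture A for products with powers.** -/
theorem SplitAlg.lefschetzA_iff (h : SplitAlg W A D B n) {E : B.Cycles} (hE : B.IsCyc 1 E)
    (hHL : HardLefschetz W B E) :
    LefschetzA W ((nest ops n fun _ => (⟨A, D⟩ : Polarized 𝒱)).prod ops ⟨B, E⟩).X
      ((nest ops n fun _ => (⟨A, D⟩ : Polarized 𝒱)).prod ops ⟨B, E⟩).D ↔
      LefschetzA W B E := by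
  by_cases hB1 : (1 : W.H B) = 0
  · refine iff_of_true (lefschetzA_of_zero ?_ _) (lefschetzA_of_zero hB1 _)
    have h1 : (1 : W.H ((nest ops n fun _ => (⟨A, D⟩ : Polarized 𝒱)).X.prod B)) = 0 := by
      rw [← map_one (W.map (snd _ B)), hB1, map_zero]
    exact h1
  · obtain ⟨g, F⟩ := h.fp_nest hB1
    obtain ⟨hP, hPL⟩ := h.nest_hard n
    refine TH132.A.lefschetzA_prod_iff (h.clSplit hB1) hP hE
      (SmVar.IsCyc.add (ops.pull_mem _ hP) (ops.pull_mem _ hE)) ?_ hPL hHL
      (lefschetzA_of_D hP hPL F.hodge.2) h.nest_one_ne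
    show W.cl _ (ops.pull _ _ + ops.pull _ _) = _
    rw [map_add, W.cl_pull, W.cl_pull]

/-- **The conjecture A for products with powers and all divisors.** -/
theorem SplitAlg.lefAll_iff (h : SplitAlg W A D B n) :
    LefAll W ((nest ops n fun _ => (⟨A, D⟩ : Polarized 𝒱)).X.prod B) ↔ LefAll W B := by
  by_cases hB1 : (1 : W.H B) = 0
  · refine iff_of_true (fun _ _ _ => lefschetzA_of_zero ?_ _)
      (fun _ _ _ => lefschetzA_of_zero hB1 _)
    have h1 : (1 : W.H ((nest ops n fun _ => (⟨A, D⟩ : Polarized 𝒱)).X.prod B)) = 0 := by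
      rw [← map_one (W.map (snd _ B)), hB1, map_zero]
    exact h1
  have hP1 := h.nest_one_ne
  obtain ⟨g, F⟩ := h.fp_nest hB1
  have hS := h.clSplit hB1
  constructor
  · intro h1 E hE hHL
    obtain ⟨hP, hPL⟩ := h.nest_hard n
    exact (h.lefschetzA_iff hE hHL).1 (h1 _
      (SmVar.IsCyc.add (ops.pull_mem _ hP) (ops.pull_mem _ hE))
      (hardLefschetz_prod hP hE hPL hHL))
  · intro h1 C hC hHL
    obtain ⟨D', E', hD', hE', hDE⟩ := TH132.A.div_split hS hC
    have h2 := TH132.A.hl_left hD' hE' hDE hHL hB1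
    have h3 := TH132.A.hl_right hE' hD' hDE hHL hP1
    exact (TH132.A.lefschetzA_prod_iff hS hD' hE' hC hDE h2 h3
      (lefschetzA_of_D hD' h2 F.hodge.2) hP1).2 (h1 E' hE' h3)

end

end Pool.Agent.Y126.SA
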